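import Pool.Agent.HH.Final

/-!
# The homotopy hypothesis for every Grothendieck coherator (MP_c72943_al, Q1)

All definitions used in the statement are in `Pool/Agent/HH/Official.lean`.
-/

set_option autoImplicit false

open CategoryTheory

namespace Pool.Agent.Results.MP_c72943_al.HomotopyHypothesis

open Pool.Agent.HH

/-- For every coherator unit operations exist and, for every choice of them, the localisation of the
category of infinity-groupoids at the infinity-equivalences is equivalent to the homotopy category
of CW-complexes. -/
theorem result {C : Type} [SmallCategory C] (F : Globes C) (hF : IsCoherator F) :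
    Nonempty (Units F) ∧
      ∀ κ : Units F, Nonempty ((infEquivalences κ).Localization ≌ HoCW.{0}) := by
  refine ⟨?_, fun κ => HH.homotopy_hypothesis hF κ⟩
  have h : ∀ i, F.Parallel (F.D i) i (𝟙 (F.D i)) (𝟙 (F.D i)) := by
    intro i
    cases i with
    | zero => trivial
    | succ i => exact ⟨rfl, rfl⟩
  choose k hk using fun i => hF.contractible (F.D i) i _ _ (h i)
  exact ⟨⟨k, fun i => (hk i).1, fun i => (hk i).2⟩⟩

end Pool.Agent.Results.MP_c72943_al.HomotopyHypothesis
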